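import Mathlib
import Pool.Agent.Y43.CH.Final
import Pool.Agent.V11238.MG.FP

/-!
A finitely presented co-hopfian group with a subgroup of index two that is not co-hopfian.

Let `R` be Baumslag's finitely presented metabelian group over the field with two elements, the
semidirect product of the ring `A` of Laurent polynomials in `x` with `1 + x` inverted and the group
of units generated by `x` and `1 + x`, and `W` the amalgamated product of `R` and the dihedral group
of order ten along the subgroup generated by `1` in `A`, identified with a reflection.  The group
consists of the pairs `(w, s)` in `W × S_3` for which the sign of `s` is the parity of the exponent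
sum of `x` in `w`.  The subgroup consists of the pairs for which both are even; the Frobenius map
of `W` embeds it properly into itself.
-/

namespace Pool.Agent.Results.MP_ce3880_al.FPFiniteIndexSubgroup

/-- There is a finitely presented group `G`, each of whose injective endomorphisms is surjective,
and a finitely presented subgroup `H` of index two in `G` with an injective endomorphism that is not
surjective. -/
theorem result : ∃ (G : Type) (_ : Group G) (H : Subgroup G),
    Group.IsFinitelyPresented G ∧ Group.IsFinitelyPresented H ∧ H.index = 2 ∧
    (∀ f : G →* G, Function.Injective f → Function.Surjective f) ∧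
    ∃ f : H →* H, Function.Injective f ∧ ¬ Function.Surjective f := by
  have hfp : Group.IsFinitelyPresented Pool.Agent.Y43.CH.H := Pool.Agent.Y43.CH.H_fp
  have hfi : Pool.Agent.Y43.CH.H0.FiniteIndex :=
    ⟨by rw [Pool.Agent.Y43.CH.H0_index]; decide⟩
  refine ⟨Pool.Agent.Y43.CH.H, inferInstance, Pool.Agent.Y43.CH.H0, hfp,
    Pool.Agent.V11238.MG.fp_of_finiteIndex _, Pool.Agent.Y43.CH.H0_index,
    Pool.Agent.Y43.CH.H_coHopfian, ?_⟩
  have h := Pool.Agent.Y43.CH.H0_not_coHopfian
  unfold Pool.Agent.Y43.CH.CoHopfian at h
  push Not at h
  exact h

end Pool.Agent.Results.MP_ce3880_al.FPFiniteIndexSubgroup
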